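import Pool.Agent.Helper706_SQG.Main

/-!
Finite-time blow-up, with supercritical and with critical dissipation, for arbitrarily small
perturbations of the surface quasi-geostrophic constitutive law.

The perturbation `A` of the stream function is a symmetric nonnegative operator, of order `-1` up to
the factor `log(e + Λ)^a`, `a > 1` arbitrary, and as small as one likes. The velocity stays
divergence free, is a linear function of the scalar, and the dissipation is exactly `κ Λ^{2α}`.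
-/

set_option autoImplicit false

open Set Filter Topology MeasureTheory
open scoped ComplexConjugate ContDiff

namespace Pool.Agent.Results.MP_96bed6_an.NearSQG

open H706

theorem result (a δ : ℝ) (ha : 1 < a) (hδ : 0 < δ) :
    ∃ (w : ℕ → ℝ) (E : ℕ → Pt → ℝ),
      (∀ n, 0 ≤ w n) ∧ (∀ n, Sm (E n)) ∧ (∀ n x, E n (-x.1, x.2) = -E n x) ∧
      (∀ f, Sm f → ∀ x, Summable fun n => w n * ip (E n) f * E n x) ∧
      (∀ f g, Sm f → Sm g → ip (opA w E f) g = ip f (opA w E g)) ∧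
      (∀ f, Sm f → 0 ≤ ip (opA w E f) f) ∧
      (∀ s : ℝ, ∃ C : ℝ, ∀ f, Sm f → Sm (opA w E f) ∧ sob (s + 1) (opA w E f) ≤ C * sobL a s f) ∧
      (∀ f, Sm f → sob 1 (opA w E f) ≤ δ ^ 2 * sobL a 0 f) ∧
      ∀ lam α κ M : ℝ, 0 < α → α ≤ 1 / 2 → 0 < κ → 0 < M →
        ∃ ρ ∈ Ioo (0 : ℝ) 1, ∃ Tb > 0, ∃ ε₀ > 0, ∀ ε ∈ Ioc 0 ε₀, ∀ θ₀ : Pt → ℝ, Sm θ₀ →
          (∀ x, |θ₀ x - M * (1 - ρ) * (Real.sin x.1 / Real.sqrt (Real.sin x.1 ^ 2 + ε ^ 2))|
            ≤ M * ρ) →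
          ∃ Tst > 0, Tst ≤ Tb ∧ ∃ θ, IsSol lam α κ w E θ₀ Tst θ ∧
            ∀ T θ', IsSol lam α κ w E θ₀ T θ' → T ≤ Tst ∧ ∀ t ∈ Ico 0 T, θ' t = θ t := by
  obtain ⟨Ca, ca, Cb, cb, c₁, b₀, v₀, m₀, Z, q, p, r, J, M, hc⟩ := exists_cons
  set a' : ℝ := (1 + a) / 2 with ha'
  have h1 : 1 < a' := by rw [ha']; linarith
  have h2 : a' < a := by rw [ha']; linarith
  have hC₁ : (1 : ℝ) ≤ 5 * 2 ^ J + 4 * M := by
    have : (1 : ℝ) ≤ 2 ^ J := one_le_pow₀ (by norm_num)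
    have : (0 : ℝ) ≤ M := Nat.cast_nonneg M
    linarith
  have hC₂ : (0 : ℝ) ≤ 4 * Ca * Cb := by
    have := hc.hCa
    have := hc.hCb
    positivity
  have hbb := band_bound a' a (5 * 2 ^ J + 4 * M) (4 * Ca * Cb) (by linarith) h2.le hC₁ hC₂
  obtain ⟨C, hC, hCb⟩ := hbb 0
  obtain ⟨n₀, hn, hn2⟩ : ∃ n₀ : ℕ, 1 ≤ n₀ ∧ C * (n₀ : ℝ) ^ (-(2 * (a - a'))) ≤ δ ^ 2 := by
    have h3 : Tendsto (fun n : ℕ => C * (n : ℝ) ^ (-(2 * (a - a')))) atTop (𝓝 (C * 0)) :=
      ((tendsto_rpow_neg_atTop (by linarith)).comp tendsto_natCast_atTop_atTop).const_mul C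
    rw [mul_zero] at h3
    have h4 := (h3.eventually (ge_mem_nhds (show (0 : ℝ) < δ ^ 2 by positivity))).and
      (eventually_ge_atTop 1)
    obtain ⟨n₀, h5, h6⟩ := h4.exists
    exact ⟨n₀, h6, h5⟩
  have hE := EN_sm q p r J M n₀
  have he := EN_band hc n₀
  have hsy := opA_symm (a := a') (by linarith) hE he
  have hser : ∀ f, Sm f → fc (opA (wts a' n₀) (EN q p r J M n₀) f)
      = Aop (wts a' n₀) (fun n => fc (EN q p r J M n₀ n)) (fc f) := fun f hf =>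
    (opA_series (a := a') (by linarith) hE he hf).1.fc_eq
  refine ⟨wts a' n₀, EN q p r J M n₀, fun n => ?_, hE, fun n x => EN_odd q p r J M n₀ n x,
    hsy.1, hsy.2.1, hsy.2.2, fun s => ?_, fun f hf => ?_, fun lam α κ A hα hα1 hκ hA => ?_⟩
  · unfold wts om
    positivity
  · obtain ⟨C', hC', hCb'⟩ := hbb s
    refine ⟨C' * (n₀ : ℝ) ^ (-(2 * (a - a'))), fun f hf =>
      ⟨(opA_series (a := a') (by linarith) hE he hf).1.sm, ?_⟩⟩
    have h3 := (hCb' n₀ hn _ he (fc f) (RD_fc hf)).2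
    unfold sob sobL
    rw [hser f hf]
    exact h3
  · have h3 := (hCb n₀ hn _ he (fc f) (RD_fc hf)).2
    have h4 : sob 1 (opA (wts a' n₀) (EN q p r J M n₀) f)
        ≤ C * (n₀ : ℝ) ^ (-(2 * (a - a'))) * sobL a 0 f := by
      unfold sob sobL
      rw [hser f hf]
      rw [zero_add] at h3
      exact h3
    refine h4.trans (mul_le_mul_of_nonneg_right hn2 ?_)
    unfold sobL
    refine tsum_nonneg fun k => ?_
    have h5 : 0 ≤ len k := Real.sqrt_nonneg _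
    have h6 : 0 ≤ Real.log (Real.exp 1 + len k) :=
      Real.log_nonneg (by linarith [Real.add_one_le_exp (1 : ℝ)])
    positivity
  · exact main_blowup hc (by linarith) hn (Or.inl ⟨h1, hα1⟩) hα hκ hA

end Pool.Agent.Results.MP_96bed6_an.NearSQG
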