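import Pool.Agent.Helper706_SQG.Main

/-!
Finite-time blow-up, for every supercritical dissipation, for an active scalar equation whose
constitutive law has exactly the order of the surface quasi-geostrophic one.
-/

set_option autoImplicit false

open Set Filter Topology MeasureTheory
open scoped ComplexConjugate ContDiff

namespace Pool.Agent.Results.MP_96bed6_an.OrderMinusOne

open H706

theorem result :
    ∃ (w : ℕ → ℝ) (E : ℕ → Pt → ℝ),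
      (∀ n, 0 ≤ w n) ∧ (∀ n, Sm (E n)) ∧ (∀ n x, E n (-x.1, x.2) = -E n x) ∧
      (∀ f, Sm f → ∀ x, Summable fun n => w n * ip (E n) f * E n x) ∧
      (∀ f g, Sm f → Sm g → ip (opA w E f) g = ip f (opA w E g)) ∧
      (∀ f, Sm f → 0 ≤ ip (opA w E f) f) ∧
      (∀ s : ℝ, ∃ C : ℝ, ∀ f, Sm f → Sm (opA w E f) ∧ sob (s + 1) (opA w E f) ≤ C * sob s f) ∧
      ∀ α κ M : ℝ, 0 < α → α < 1 / 2 → 0 < κ → 0 < M →
        ∃ ρ ∈ Ioo (0 : ℝ) 1, ∃ Tb > 0, ∃ ε₀ > 0, ∀ ε ∈ Ioc 0 ε₀, ∀ θ₀ : Pt → ℝ, Sm θ₀ →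
          (∀ x, |θ₀ x - M * (1 - ρ) * (Real.sin x.1 / Real.sqrt (Real.sin x.1 ^ 2 + ε ^ 2))|
            ≤ M * ρ) →
          ∃ Tst > 0, Tst ≤ Tb ∧ ∃ θ, IsSol 0 α κ w E θ₀ Tst θ ∧
            ∀ T θ', IsSol 0 α κ w E θ₀ T θ' → T ≤ Tst ∧ ∀ t ∈ Ico 0 T, θ' t = θ t := by
  obtain ⟨Ca, ca, Cb, cb, c₁, b₀, v₀, m₀, Z, q, p, r, J, M, hc⟩ := exists_cons
  have hC₁ : (1 : ℝ) ≤ 5 * 2 ^ J + 4 * M := by
    have : (1 : ℝ) ≤ 2 ^ J := one_le_pow₀ (by norm_num)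
    have : (0 : ℝ) ≤ M := Nat.cast_nonneg M
    linarith
  have hC₂ : (0 : ℝ) ≤ 4 * Ca * Cb := by
    have := hc.hCa
    have := hc.hCb
    positivity
  have hbb := band_bound 0 0 (5 * 2 ^ J + 4 * M) (4 * Ca * Cb) le_rfl le_rfl hC₁ hC₂
  have hE := EN_sm q p r J M 1
  have he := EN_band hc 1
  have hsy := opA_symm (a := 0) le_rfl hE he
  have hser : ∀ f, Sm f → fc (opA (wts 0 1) (EN q p r J M 1) f)
      = Aop (wts 0 1) (fun n => fc (EN q p r J M 1 n)) (fc f) := fun f hf =>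
    (opA_series (a := 0) le_rfl hE he hf).1.fc_eq
  refine ⟨wts 0 1, EN q p r J M 1, fun n => ?_, hE, fun n x => EN_odd q p r J M 1 n x,
    hsy.1, hsy.2.1, hsy.2.2, fun s => ?_, fun α κ A hα hα1 hκ hA => ?_⟩
  · unfold wts om
    positivity
  · obtain ⟨C', hC', hCb'⟩ := hbb s
    refine ⟨C', fun f hf => ⟨(opA_series (a := 0) le_rfl hE he hf).1.sm, ?_⟩⟩
    have h3 := (hCb' 1 le_rfl _ he (fc f) (RD_fc hf)).2
    unfold sob
    rw [hser f hf]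
    simpa using h3
  · exact main_blowup hc le_rfl le_rfl (Or.inr ⟨rfl, hα1⟩) hα hκ hA

end Pool.Agent.Results.MP_96bed6_an.OrderMinusOne
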